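import Pool.Agent.Helper832_MU.CM

/-!
# Iwasawa's conjecture: reduction to fields with a real embedding and to CM fields

Let `p` be an odd prime. Number fields are finite subextensions of `Qb / ℚ`, `Qb = AlgebraicClosure ℚ`, and `𝓞 Qb` is
the ring of all algebraic integers.

`MuVanishes p F` says that the degrees of the maximal abelian extensions of exponent `p` of the layers `F L`, which
are unramified and in which the primes above `p` split completely, are bounded, where `L` runs through the layers of
the cyclotomic `ℤ_p`-extension of `ℚ`. By class field theory this is the boundedness of the `p`-ranks of the class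
groups of the layers modulo the classes of the primes above `p`, i.e. `X` is finitely generated over `ℤ_p`.
-/

set_option autoImplicit false

open NumberField

namespace Pool.Agent.Results.MP_d0239a_nt.RealAndCM

/-- the field of algebraic numbers -/
abbrev Qb := AlgebraicClosure ℚ

/-- `L` is a layer of the cyclotomic `ℤ_p`-extension of `ℚ` (`p` odd): a number field contained in
`ℚ(μ_{p^∞})`, of `p`-power degree. -/
def IsLayer (p : ℕ) (L : IntermediateField ℚ Qb) : Prop :=
  L ≤ IntermediateField.adjoin ℚ {z : Qb | ∃ n, z ^ p ^ n = 1} ∧ ∃ n, Module.finrank ℚ L = p ^ n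

/-- `M / E` is Galois (for `E ≤ M`) -/
def GaloisOver (E M : IntermediateField ℚ Qb) : Prop := ∀ σ ∈ E.fixingSubgroup, ∀ x ∈ M, σ x ∈ M

/-- the Galois group of `M / E` is abelian -/
def AbelianOver (E M : IntermediateField ℚ Qb) : Prop :=
  ∀ σ ∈ E.fixingSubgroup, ∀ τ ∈ E.fixingSubgroup, ∀ x ∈ M, σ (τ x) = τ (σ x)

/-- the Galois group of `M / E` has exponent `p` -/
def ExponentOver (p : ℕ) (E M : IntermediateField ℚ Qb) : Prop :=
  ∀ σ ∈ E.fixingSubgroup, ∀ x ∈ M, (σ ^ p) x = x

/-- the inertia groups of the Galois extension `M / E` are trivial at all maximal ideals -/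
def UnramifiedOver (E M : IntermediateField ℚ Qb) : Prop :=
  ∀ P : Ideal (𝓞 Qb), P.IsMaximal → ∀ σ ∈ E.fixingSubgroup, (∀ y : 𝓞 Qb, σ • y - y ∈ P) →
    ∀ x ∈ M, σ x = x

/-- the decomposition groups of the Galois extension `M / E` are trivial at the primes above `p` -/
def SplitOver (p : ℕ) (E M : IntermediateField ℚ Qb) : Prop :=
  ∀ P : Ideal (𝓞 Qb), P.IsMaximal → (p : 𝓞 Qb) ∈ P → ∀ σ ∈ E.fixingSubgroup,
    (∀ y ∈ P, σ • y ∈ P) → ∀ x ∈ M, σ x = x

/-- Every finite extension `M` of `E` which is Galois over `E` with abelian Galois group of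
exponent `p`, unramified at all (finite) primes and in which the primes above `p` split completely,
has degree at most `C` over `E`. -/
def DegreeBound (p : ℕ) (E : IntermediateField ℚ Qb) (C : ℕ) : Prop :=
  ∀ M : IntermediateField ℚ Qb, E ≤ M → FiniteDimensional ℚ M → GaloisOver E M → AbelianOver E M →
    ExponentOver p E M → UnramifiedOver E M → SplitOver p E M →
    Module.finrank ℚ M ≤ C * Module.finrank ℚ E

/-- the conjecture for `F` and `p` -/
def MuVanishes (p : ℕ) (F : IntermediateField ℚ Qb) : Prop :=
  ∃ C, ∀ L, IsLayer p L → DegreeBound p (F ⊔ L) C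

/-- the field of the algebraic numbers whose image under the embedding `φ` is real -/
def realPart (φ : Qb →+* ℂ) : IntermediateField ℚ Qb := Pool.Agent.Helper832_MU.realPart φ

theorem mem_realPart (φ : Qb →+* ℂ) (x : Qb) : x ∈ realPart φ ↔ (φ x).im = 0 := Iff.rfl

open Pool.Agent.Helper832_MU in
theorem mu_iff {p : ℕ} {F : IntermediateField ℚ Qb} : MuVanishes p F ↔ MuZ p F := Iff.rfl

open Pool.Agent.Helper832_MU in
theorem single (p : ℕ) [Fact p.Prime] (hp : p ≠ 2) (φ : Qb →+* ℂ) (N : IntermediateField ℚ Qb)
    (hN : FiniteDimensional ℚ N) (hNn : IsGalois ℚ N) :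
    MuVanishes p N ↔ MuVanishes p (N ⊓ realPart φ) ∧
      ∀ F : IntermediateField ℚ Qb, F ≤ N → IsGalois ℚ F → IsCMField F → MuVanishes p F := by
  constructor
  · intro h
    exact ⟨MuZ.mono inf_le_left hN h, fun F hF _ _ => MuZ.mono hF hN h⟩
  · rintro ⟨h1, h2⟩
    exact det_conj hp φ N hN hNn h1 h2

/-- Let `p` be an odd prime and let `N` be a number field which is Galois over `ℚ`. Then the conjecture holds for `p`
and all subfields `F` of `N` if and only if it holds for the real subfield `N ∩ ℝ` and for the CM subfields of `N`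
which are Galois over `ℚ`. -/
theorem result (p : ℕ) [Fact p.Prime] (hp : p ≠ 2) (φ : Qb →+* ℂ) (N : IntermediateField ℚ Qb)
    (hN : FiniteDimensional ℚ N) (hNn : IsGalois ℚ N) :
    (∀ F : IntermediateField ℚ Qb, F ≤ N → MuVanishes p F) ↔
      MuVanishes p (N ⊓ realPart φ) ∧
      ∀ F : IntermediateField ℚ Qb, F ≤ N → IsGalois ℚ F → IsCMField F → MuVanishes p F := by
  rw [← single p hp φ N hN hNn]
  exact ⟨fun h => h N le_rfl, fun h F hF => Pool.Agent.Helper832_MU.MuZ.mono hF hN h⟩

end Pool.Agent.Results.MP_d0239a_nt.RealAndCM
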